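import Pool.Agent.W360.MQ.Stm

/-! Project HM: every rank-one convex, isotropic and positively homogeneous function on real
`2 × 2` matrices is quasiconvex.

Notation: a matrix `A` has operator norm `s` and determinant `s v`, `|v| ≤ s`; an isotropic
homogeneous function is `s ^ p * f (v / s)` with `f : [-1,1] → ℝ`. -/

set_option autoImplicit false

namespace Pool.Agent.W707.HM

open MeasureTheory Set Filter Topology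
open Pool.Agent.W360.BQ (QCF)
open Pool.Agent.W360.MQ (QA RC wf cab RankOneConvex Quasiconvex)

/-- `m` is the slope of a supporting line of `f` at `t`, on `[-1,1]` -/
def SG (f : ℝ → ℝ) (t m : ℝ) : Prop :=
  t ∈ Icc (-1 : ℝ) 1 ∧ ∀ u ∈ Icc (-1 : ℝ) 1, f t + m * (u - t) ≤ f u

/-- the isotropic homogeneous function with profile `f`, as a function of `(u_z, u_zbar)` -/
noncomputable def wh (p : ℝ) (f : ℝ → ℝ) (F : ℂ × ℂ) : ℝ :=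
  (‖F.1‖ + ‖F.2‖) ^ p * f ((‖F.1‖ - ‖F.2‖) / (‖F.1‖ + ‖F.2‖))

/-- the same, as a function of the matrix -/
noncomputable def Wm (p : ℝ) (f : ℝ → ℝ) (A : Matrix (Fin 2) (Fin 2) ℝ) : ℝ := wh p f (cab A)

/-- isotropy -/
def Isotropic (W : Matrix (Fin 2) (Fin 2) ℝ → ℝ) : Prop :=
  ∀ R ∈ Matrix.specialOrthogonalGroup (Fin 2) ℝ, ∀ Q ∈ Matrix.specialOrthogonalGroup (Fin 2) ℝ,
    ∀ A, W (R * A * Q) = W A

/-- homogeneity -/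
def Homog (p : ℝ) (W : Matrix (Fin 2) (Fin 2) ℝ → ℝ) : Prop :=
  ∀ c : ℝ, 0 < c → ∀ A, W (c • A) = c ^ p * W A

/-- the inequality obtained from the symmetric rank-one lines -/
def HI (p : ℝ) (f : ℝ → ℝ) : Prop := ∀ t m : ℝ, t < 1 → SG f t m → ∀ s v : ℝ, 0 < s → |v| ≤ s →
  0 ≤ (s - 1) * (v - t) → t ≤ s → v ≤ 1 →
  f t + (p * f t - t * m) * (s - 1) + m * (v - t)
    - (p * f t - (1 + t) * m) / (1 - t) * ((s - 1) * (v - t)) ≤ s ^ p * f (v / s)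

/-- the condition at the end point -/
def QE (p : ℝ) (f : ℝ → ℝ) : Prop :=
  ∀ t ∈ Icc (-1 : ℝ) 1, f (-1) * (1 - p / 2 * (1 + t)) ≤ f t

/-- the condition from the lines `diag(1,t) + ε e₁ ⊗ e₂` -/
def QT (p : ℝ) (f : ℝ → ℝ) : Prop :=
  ∀ t m : ℝ, -1 < t → t < 1 → SG f t m → 0 ≤ p * f t - 2 * t * m

/-- one half of the admissibility conditions -/
structure Adh (p : ℝ) (f : ℝ → ℝ) : Prop where
  hp : 1 ≤ p
  cvx : ConvexOn ℝ (Icc (-1 : ℝ) 1) f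
  cont : ContinuousOn f (Icc (-1 : ℝ) 1)
  qe : QE p f
  qe' : QE p (fun t => f (-t))
  qt : QT p f
  hi : HI p f

/-- the reflected profile -/
def mir (f : ℝ → ℝ) : ℝ → ℝ := fun t => f (-t)

/-! ### from matrices to the profile -/

/-- the normal form -/
def S_ISO : Prop := ∀ (p : ℝ) (W : Matrix (Fin 2) (Fin 2) ℝ → ℝ), 1 ≤ p → Isotropic W →
  Homog p W → ∃ f : ℝ → ℝ, W = Wm p f

def S_CVF : Prop := ∀ (p : ℝ) (f : ℝ → ℝ), RankOneConvex (Wm p f) →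
  ConvexOn ℝ (Icc (-1 : ℝ) 1) f

def S_QE : Prop := ∀ (p : ℝ) (f : ℝ → ℝ), 1 ≤ p → RankOneConvex (Wm p f) → QE p f

def S_MIR : Prop := ∀ (p : ℝ) (f : ℝ → ℝ), RankOneConvex (Wm p f) → RankOneConvex (Wm p (mir f))

def S_CTF : Prop := ∀ (p : ℝ) (f : ℝ → ℝ), ConvexOn ℝ (Icc (-1 : ℝ) 1) f → QE p f →
  QE p (mir f) → ContinuousOn f (Icc (-1 : ℝ) 1)

def S_QT : Prop := ∀ (p : ℝ) (f : ℝ → ℝ), 1 ≤ p → RankOneConvex (Wm p f) → QT p f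

def S_HI : Prop := ∀ (p : ℝ) (f : ℝ → ℝ), 1 ≤ p → RankOneConvex (Wm p f) → HI p f

def S_CTW : Prop := ∀ (p : ℝ) (f : ℝ → ℝ), 1 ≤ p → ContinuousOn f (Icc (-1 : ℝ) 1) →
  Continuous (wh p f)

/-- small degrees -/
def S_PLT : Prop := ∀ (p : ℝ) (W : Matrix (Fin 2) (Fin 2) ℝ → ℝ), p < 1 → Homog p W →
  RankOneConvex W → ∀ A, W A = W 0

/-! ### the class `RC` -/

def S_RC1 : Prop := ∀ p A m : ℝ, 1 ≤ p → |p - 2| * |m| ≤ p * A →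
  RC (fun s => A * s ^ p) (fun s => m * s ^ (p - 2))

def S_RC2 : Prop := ∀ (g h nu : ℝ → ℝ) (c n1 : ℝ),
  (∀ s, 1 ≤ s → HasDerivWithinAt h (-nu s) (Ici 1) s) →
  (∀ s, 1 ≤ s → HasDerivWithinAt g (h s + s * nu s) (Ici 1) s) →
  MonotoneOn nu (Ici 1) → n1 ≤ nu 1 → g 1 = c → h 1 = -n1 →
  RC (fun s => if s < 1 then c else g s) (fun s => if s < 1 then -n1 else h s / s)

def S_SCL : Prop := ∀ (α β : ℝ → ℝ) (k e l : ℝ), RC α β → 0 ≤ k → e ^ 2 = 1 → 0 < l →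
  RC (fun s => k * α (l * s)) (fun s => k * e * l ^ 2 * β (l * s))

/-! ### the conjugate function -/

/-- `fs` is the conjugate function of `f` on `[-1,1]` and `tau m` a maximiser of `m t - f t` -/
def Cj (f fs tau : ℝ → ℝ) : Prop := ∀ m : ℝ, SG f (tau m) m ∧ fs m = m * tau m - f (tau m)

def S_EX : Prop := ∀ f : ℝ → ℝ, ContinuousOn f (Icc (-1 : ℝ) 1) → ∃ fs tau : ℝ → ℝ, Cj f fs tau

/-- continuity of the maximiser -/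
def S_TAU : Prop := ∀ f fs tau : ℝ → ℝ, ContinuousOn f (Icc (-1 : ℝ) 1) → Cj f fs tau →
  ∀ m : ℝ, (∀ t, SG f t m → t = tau m) → ContinuousAt tau m ∧ HasDerivAt fs (tau m) m

/-- `Γ` -/
def Gm (p : ℝ) (fs : ℝ → ℝ) (m : ℝ) : ℝ := p * fs m - (p - 2) * m

/-- `D` -/
noncomputable def Dm (p : ℝ) (fs tau : ℝ → ℝ) (m : ℝ) : ℝ := Gm p fs m / (1 - tau m)

/-- `q - 2 D τ` -/
noncomputable def Qm (p : ℝ) (fs tau : ℝ → ℝ) (m : ℝ) : ℝ :=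
  -((p - 1) * (p - 2) * m * (1 - tau m)) - Dm p fs tau m * ((p - 1) - (p - 3) * tau m)

/-- `D` at a point `(t, m)` -/
noncomputable def Dt (p : ℝ) (f : ℝ → ℝ) (t m : ℝ) : ℝ :=
  (p * (m * t - f t) - (p - 2) * m) / (1 - t)

/-- `q - 2 D t` at a point `(t, m)` -/
noncomputable def Qt (p : ℝ) (f : ℝ → ℝ) (t m : ℝ) : ℝ :=
  (p - 1) * (p * f t - 2 * t * m) - 2 * Dt p f t m * t

/-- the quadratic lower bound -/
def S_QLB : Prop := ∀ (p : ℝ) (f : ℝ → ℝ), 1 ≤ p → HI p f → ∀ K M eta : ℝ, 0 ≤ K → 0 < eta →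
  ∃ C d0 : ℝ, 0 < d0 ∧ ∀ t m : ℝ, SG f t m → t ≤ 1 - eta → |m| ≤ M → |f t| ≤ M →
    ∀ u ∈ Icc (-1 : ℝ) 1, u ≤ 1 - eta → |u - t| ≤ d0 → 0 ≤ 1 + u * K →
      (Dt p f t m * K - K ^ 2 * Qt p f t m / 2) * (u - t) ^ 2 - C * |u - t| ^ 3
        ≤ f u - f t - m * (u - t)

/-- strict convexity where `Γ > 0` -/
def S_UNI : Prop := ∀ (p : ℝ) (f : ℝ → ℝ), 1 ≤ p → ConvexOn ℝ (Icc (-1 : ℝ) 1) f → HI p f →
  ∀ m t t' : ℝ, SG f t m → SG f t' m → t < 1 → 0 < p * (m * t - f t) - (p - 2) * m → t' ≤ t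

/-- `q - 2 D t ≥ 0` for `t ≥ 0` -/
def S_QPO : Prop := ∀ (p : ℝ) (f : ℝ → ℝ), 1 ≤ p → HI p f → ∀ m t : ℝ, SG f t m → 0 ≤ t → t < 1 →
  0 ≤ Qt p f t m

/-- the local estimate -/
def LE (p : ℝ) (fs tau : ℝ → ℝ) (m1 : ℝ) : Prop :=
  ∀ R : ℝ, Qm p fs tau m1 / Dm p fs tau m1 ^ 2 < R →
    ∀ᶠ m in 𝓝[>] m1, tau m - tau m1 ≤ R * (m - m1)

def S_LE : Prop := ∀ (p : ℝ) (f fs tau : ℝ → ℝ), 1 < p → ContinuousOn f (Icc (-1 : ℝ) 1) →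
  HI p f → QT p f → Cj f fs tau →
  ∀ m1 : ℝ, 0 < Gm p fs m1 → tau m1 < 1 → 0 ≤ p * f (-1) + 2 * m1 → ContinuousAt tau m1 →
    LE p fs tau m1

/-- the differential equation -/
def S_ODE : Prop := ∀ (a b K : ℝ) (D : ℝ → ℝ), a < b → ContinuousOn D (Ico a b) →
  (∀ m ∈ Ico a b, 0 < D m ∧ D m ≤ K * (b - m)) →
  ∃ mu : ℝ → ℝ, mu 1 = a ∧
    (∀ s, 1 ≤ s → mu s ∈ Ico a b ∧ HasDerivWithinAt mu (D (mu s) / s) (Ici 1) s) ∧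
    ∀ m ∈ Ico a b, ∃ s, 1 ≤ s ∧ mu s = m

/-- monotonicity of `ν` -/
def S_MON : Prop := ∀ (p : ℝ) (fs tau : ℝ → ℝ) (a b : ℝ) (mu : ℝ → ℝ), 1 < p → a < b →
  (∀ m ∈ Ico a b, 0 < Gm p fs m ∧ -1 ≤ tau m ∧ tau m < 1 ∧ ContinuousAt tau m ∧
    HasDerivAt fs (tau m) m ∧ LE p fs tau m) →
  mu 1 = a →
  (∀ s, 1 ≤ s → mu s ∈ Ico a b ∧ HasDerivWithinAt mu (Dm p fs tau (mu s) / s) (Ici 1) s) →
  MonotoneOn (fun s => -(s ^ (p - 2) * ((p - 1) * mu s + Dm p fs tau (mu s)))) (Ici 1)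

/-- the function lies below `s ^ p * f (v / s)` -/
def Below (p : ℝ) (f α β : ℝ → ℝ) : Prop :=
  ∀ s v : ℝ, 0 ≤ s → |v| ≤ s → α s + β s * (s * v) ≤ s ^ p * f (v / s)

/-- the inner part -/
def S_INN : Prop := ∀ (p : ℝ) (f : ℝ → ℝ), 1 ≤ p → QE p f → 0 < (p - 2) * f (-1) →
  ∀ s v : ℝ, 0 ≤ s → s < 1 → |v| ≤ s →
    -(p / 2 - 1) * f (-1) + -(p / 2 * f (-1)) * (s * v) ≤ s ^ p * f (v / s)

/-- the structure of `Γ` -/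
def S_GAM : Prop := ∀ (p : ℝ) (f fs tau : ℝ → ℝ), Adh p f → Cj f fs tau → ∀ t0 m0 : ℝ,
  SG f t0 m0 → t0 < 1 → -(p / 2 * f (-1)) ≤ m0 → 0 < p * (m0 * t0 - f t0) - (p - 2) * m0 →
  1 < p ∧ 0 < (p - 2) * f (-1) ∧
  fs (-(p / 2 * f (-1))) = (p / 2 - 1) * f (-1) ∧ tau (-(p / 2 * f (-1))) = -1 ∧ tau m0 = t0 ∧
  fs m0 = m0 * t0 - f t0 ∧
  ∃ b : ℝ, m0 < b ∧ ∀ m ∈ Ico (-(p / 2 * f (-1))) b, 0 < Gm p fs m ∧ -1 ≤ tau m ∧ tau m < 1 ∧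
    ContinuousAt tau m ∧ HasDerivAt fs (tau m) m ∧ Dm p fs tau m ≤ p * (p - 1) * (b - m)

/-- the support functions in the second case -/
def S_C2 : Prop := ∀ (p : ℝ) (f : ℝ → ℝ), Adh p f → ∀ t0 m0 : ℝ,
  SG f t0 m0 → t0 < 1 → -(p / 2 * f (-1)) ≤ m0 → 0 < p * (m0 * t0 - f t0) - (p - 2) * m0 →
  ∃ α β : ℝ → ℝ, RC α β ∧ Below p f α β ∧ α 1 + β 1 * t0 = f t0

/-- **the support functions** -/
def S_CORE : Prop := ∀ (p : ℝ) (f : ℝ → ℝ), Adh p f → Adh p (mir f) → ∀ t0 ∈ Icc (-1 : ℝ) 1,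
  ∃ α β : ℝ → ℝ, RC α β ∧ Below p f α β ∧ α 1 + β 1 * t0 = f t0

/-! ### the conclusion -/

/-- the point `0` -/
def S_ZER : Prop := ∀ w : ℂ × ℂ → ℝ, Continuous w → (∀ F0, F0 ≠ 0 → QCF w F0) → QCF w 0

/-- from the support functions to quasiconvexity -/
def S_SUP : Prop := ∀ (p : ℝ) (f : ℝ → ℝ), 1 ≤ p → Continuous (wh p f) →
  (∀ t0 ∈ Icc (-1 : ℝ) 1,
    ∃ α β : ℝ → ℝ, RC α β ∧ Below p f α β ∧ α 1 + β 1 * t0 = f t0) →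
  QA (wh p f)

/-- **the theorem** -/
def S_HM : Prop := ∀ (p : ℝ) (W : Matrix (Fin 2) (Fin 2) ℝ → ℝ), Isotropic W → Homog p W →
  RankOneConvex W → Quasiconvex W

end Pool.Agent.W707.HM
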