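import Pool.Agent.W707.HM.Fin
import Pool.Agent.W22.HM.Iso
import Pool.Agent.W440.HM2.CVF
import Pool.Agent.W253.HM707.QE
import Pool.Agent.W639.HM.Mir
import Pool.Agent.W85.HM.Ctf
import Pool.Agent.W377.HM.QT
import Pool.Agent.W298.HM.Hi
import Pool.Agent.W55.HM.CTW
import Pool.Agent.W337.HM.Plt
import Pool.Agent.W557.HM.RC1
import Pool.Agent.W368.HM.Rc2
import Pool.Agent.W315.HM.Scl
import Pool.Agent.W978.HM.Ex
import Pool.Agent.W202.HM.Tau
import Pool.Agent.W701.HM.Qlb
import Pool.Agent.W135.HM.Uni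
import Pool.Agent.W91.HM.QPO
import Pool.Agent.W298.HM.Le
import Pool.Agent.W800.HM.Ode
import Pool.Agent.W143.HM.Mon
import Pool.Agent.W298.HM.Inn
import Pool.Agent.W959.HM.Gam
import Pool.Agent.W800.HM.C2
import Pool.Agent.W414.HM.Core
import Pool.Agent.W962.HM.Zer
import Pool.Agent.W298.HM.Sup
import Pool.Agent.W360.MQ.Qkb

/-! Project HM: all parts together. -/

set_option autoImplicit false

namespace Pool.Agent.W707.HM

theorem uni : S_UNI := Pool.Agent.W135.HM.Uni.main Pool.Agent.W701.HM.main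

theorem gam : S_GAM := Pool.Agent.W959.HM.main uni Pool.Agent.W202.HM.Tau.main

theorem le : S_LE := Pool.Agent.W298.HM.Le.main Pool.Agent.W701.HM.main
  Pool.Agent.W91.HM.QPO.main

theorem c2 : S_C2 := Pool.Agent.W800.HM.c2 Pool.Agent.W978.HM.Ex.main gam le
  Pool.Agent.W800.HM.ode Pool.Agent.W143.HM.Mon.main Pool.Agent.W368.HM.main
  Pool.Agent.W298.HM.Inn.main Pool.Agent.W315.HM.Scl.main

theorem core : S_CORE := Pool.Agent.W414.HM.main c2 Pool.Agent.W557.HM.RC1.main
  Pool.Agent.W315.HM.Scl.main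

theorem sup : S_SUP := Pool.Agent.W298.HM.Sup.main Pool.Agent.W962.HM.Zer.main
  Pool.Agent.W315.HM.Scl.main Pool.Agent.W360.MQ.Fin.qa Pool.Agent.W215.MQ.Cont.main

/-- **Every isotropic, homogeneous, rank-one convex function is quasiconvex.** -/
theorem hm_main : S_HM := hm Pool.Agent.W22.HM.main Pool.Agent.W440.HM2.t_CVF
  Pool.Agent.W253.HM707.main Pool.Agent.W639.HM.main Pool.Agent.W85.HM.main
  Pool.Agent.W377.HM.QT.main Pool.Agent.W298.HM.Hi.main Pool.Agent.W55.HM.main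
  Pool.Agent.W337.HM.Plt.main core sup Pool.Agent.W360.MQ.All.om

end Pool.Agent.W707.HM
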