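import Pool.Agent.W707.HM.Stm

/-! Project HM: assembly. -/

set_option autoImplicit false

namespace Pool.Agent.W707.HM

open MeasureTheory Set Filter Topology
open Pool.Agent.W360.BQ (QCF)
open Pool.Agent.W360.MQ (QA RC wf cab RankOneConvex Quasiconvex)

theorem adh_of (hcvf : S_CVF) (hqe : S_QE) (hmir : S_MIR) (hctf : S_CTF) (hqt : S_QT)
    (hhi : S_HI) {p : ℝ} {f : ℝ → ℝ} (hp : 1 ≤ p) (h : RankOneConvex (Wm p f)) :
    Adh p f where
  hp := hp
  cvx := hcvf p f h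
  cont := hctf p f (hcvf p f h) (hqe p f hp h) (hqe p (mir f) hp (hmir p f h))
  qe := hqe p f hp h
  qe' := hqe p (mir f) hp (hmir p f h)
  qt := hqt p f hp h
  hi := hhi p f hp h

/-- a constant function is quasiconvex -/
theorem quasiconvex_of_const {W : Matrix (Fin 2) (Fin 2) ℝ → ℝ} (h : ∀ A, W A = W 0) :
    Quasiconvex W := by
  intro F₀ Ω hΩ hb ϑ hϑ h0
  have h1 : (fun x : Fin 2 → ℝ => W (F₀ + LinearMap.toMatrix'
      ((fderiv ℝ ϑ x : (Fin 2 → ℝ) →L[ℝ] (Fin 2 → ℝ)) :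
        (Fin 2 → ℝ) →ₗ[ℝ] (Fin 2 → ℝ)))) = fun _ => W 0 := by
    funext x
    exact h _
  rw [h1, h F₀]
  simp [MeasureTheory.Measure.real, mul_comm]

theorem hm (hiso : S_ISO) (hcvf : S_CVF) (hqe : S_QE) (hmir : S_MIR) (hctf : S_CTF)
    (hqt : S_QT) (hhi : S_HI) (hctw : S_CTW) (hplt : S_PLT) (hcore : S_CORE) (hsup : S_SUP)
    (hom : Pool.Agent.W360.MQ.S_OM) : S_HM := by
  intro p W hI hH hR
  rcases lt_or_ge p 1 with hp | hp
  · exact quasiconvex_of_const (hplt p W hp hH hR)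
  · obtain ⟨f, rfl⟩ := hiso p W hp hI hH
    have hA := adh_of hcvf hqe hmir hctf hqt hhi hp hR
    have hB := adh_of hcvf hqe hmir hctf hqt hhi hp (hmir p f hR)
    have hc := hctw p f hp hA.cont
    exact hom (wh p f) hc (hsup p f hp hc (hcore p f hA hB))

end Pool.Agent.W707.HM
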